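import Mathlib

/-!
# A normal non-Lusin space `X` with `Q_p(X, ℝ)` Fréchet–Urysohn (in ZFC)

`S` is a countable dense subset of the Cantor cube `2^I`, `I` uncountable.  The points of `X` are
the points of `S` and points `p∞`, `p i` (`i ∈ I`).  Every point `x` of `X` carries an ultrafilter
`q x` on `S` that contains all dense open subsets of `S`, and the sets `{x | V ∈ q x}`, `V` open in
`S`, form a base of `X`.  The ultrafilter of `p i` contains all members of the ultrafilter of `p∞`
that do not depend on the coordinate `i`, hence every neighbourhood of `p∞` is co-countable.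
-/

namespace Pool.Agent.Results.MP_aa6101_gt.NotLusin

open Set Filter Topology

/-! ### The statement -/

/-- `f` is quasicontinuous. -/
def QuasiContinuous {X : Type*} [TopologicalSpace X] (f : X → ℝ) : Prop :=
  ∀ (x : X) (U : Set X), IsOpen U → x ∈ U → ∀ V : Set ℝ, IsOpen V → f x ∈ V →
    ∃ W : Set X, IsOpen W ∧ W.Nonempty ∧ W ⊆ U ∧ f '' W ⊆ V

/-- `Q_p(X, ℝ)`: all quasicontinuous real functions with the topology of pointwise convergence,
i.e. as a subspace of the product `ℝ^X`. -/
abbrev Qp (X : Type*) [TopologicalSpace X] : Type _ := {f : X → ℝ // QuasiContinuous f}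

/-- Lusin spaces in the sense of Kunen. -/
structure IsLusin (X : Type*) [TopologicalSpace X] : Prop where
  hausdorff : T2Space X
  nowhereDense : ∀ N : Set X, IsNowhereDense N → N.Countable
  isolated : {x : X | IsOpen ({x} : Set X)}.Countable
  uncountable : ¬ (Set.univ : Set X).Countable

/-! ### The countable dense set -/

/-- The (uncountable) index set. -/
abbrev I : Type := ℕ → Bool

/-- The countable dense subset of `2^I`: functions depending on finitely many bits. -/
def S : Set (I → Bool) := {s | ∃ n : ℕ, ∀ i j : I, (∀ k, k < n → i k = j k) → s i = s j}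

lemma S_countable : S.Countable := by
  have : S ⊆ ⋃ n : ℕ, Set.range (fun (φ : (Fin n → Bool) → Bool) (i : I) => φ (fun k => i k)) := by
    rintro s ⟨n, hn⟩
    refine Set.mem_iUnion.2 ⟨n, fun t => s (fun k => if h : k < n then t ⟨k, h⟩ else false), ?_⟩
    funext i
    apply hn
    intro k hk
    simp [hk]
  exact (Set.countable_iUnion (fun n => Set.countable_range _)).mono this

lemma I_uncountable : ¬ (Set.univ : Set I).Countable := by
  intro h
  rw [Set.countable_univ_iff] at h
  obtain ⟨f, hf⟩ := exists_surjective_nat I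
  obtain ⟨n, hn⟩ := hf (fun k => !(f k k))
  have := congrFun hn n
  simp at this

/-- Interpolation on finite sets. -/
lemma S_interp (F : Finset I) (σ : I → Bool) : ∃ s ∈ S, ∀ i ∈ F, s i = σ i := by
  classical
  -- a level separating the elements of `F`
  have hsep : ∃ n : ℕ, ∀ i ∈ F, ∀ j ∈ F, (∀ k, k < n → i k = j k) → i = j := by
    have h1 : ∀ p : I × I, ∃ k : ℕ, p.1 ≠ p.2 → p.1 k ≠ p.2 k := by
      rintro ⟨i, j⟩
      by_cases h : i = j
      · exact ⟨0, fun h' => (h' h).elim⟩
      · obtain ⟨k, hk⟩ := Function.ne_iff.1 h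
        exact ⟨k, fun _ => hk⟩
    choose K hK using h1
    refine ⟨(F ×ˢ F).sup K + 1, fun i hi j hj hag => ?_⟩
    by_contra hne
    refine hK (i, j) hne (hag _ ?_)
    have : K (i, j) ≤ (F ×ˢ F).sup K := Finset.le_sup (Finset.mem_product.2 ⟨hi, hj⟩)
    omega
  obtain ⟨n, hn⟩ := hsep
  refine ⟨fun i => decide (∃ j ∈ F, (∀ k, k < n → i k = j k) ∧ σ j = true), ⟨n, ?_⟩, ?_⟩
  · intro i i' hii
    have : (∃ j ∈ F, (∀ k, k < n → i k = j k) ∧ σ j = true) ↔
        (∃ j ∈ F, (∀ k, k < n → i' k = j k) ∧ σ j = true) := by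
      constructor
      · rintro ⟨j, hj, h1, h2⟩
        exact ⟨j, hj, fun k hk => (hii k hk).symm.trans (h1 k hk), h2⟩
      · rintro ⟨j, hj, h1, h2⟩
        exact ⟨j, hj, fun k hk => (hii k hk).trans (h1 k hk), h2⟩
    simp only [this]
  · intro i hi
    by_cases h : σ i = true
    · rw [h]
      exact decide_eq_true ⟨i, hi, fun _ _ => rfl, h⟩
    · have h' : σ i = false := by simpa using h
      rw [h']
      apply decide_eq_false
      rintro ⟨j, hj, h1, h2⟩
      have := hn i hi j hj h1
      subst this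
      exact h h2

open Classical in
/-- The image of `p∞` in the cube. -/
noncomputable def eps : I → Bool := fun i => decide (∃ N : ℕ, ∀ k, N ≤ k → i k = false)

lemma S_eps (s : I → Bool) (hs : s ∈ S) : ∃ j k : I, j ≠ k ∧ s j ≠ eps j ∧ s k ≠ eps k := by
  classical
  obtain ⟨n, hn⟩ := hs
  let a0 : I := fun _ => false
  let a2 : I := fun k => decide (k = n)
  let a1 : I := fun k => decide (n ≤ k)
  let a3 : I := fun k => decide (n < k)
  have e0 : eps a0 = true := decide_eq_true ⟨0, fun _ _ => rfl⟩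
  have e2 : eps a2 = true := decide_eq_true ⟨n + 1, fun k hk => by
    simp only [a2]; apply decide_eq_false; omega⟩
  have e1 : eps a1 = false := decide_eq_false (by
    rintro ⟨N, hN⟩
    have := hN (max N n) (le_max_left _ _)
    simp [a1] at this)
  have e3 : eps a3 = false := decide_eq_false (by
    rintro ⟨N, hN⟩
    have := hN (max N (n + 1)) (le_max_left _ _)
    simp only [a3, decide_eq_false_iff_not] at this
    apply this
    exact lt_of_lt_of_le (Nat.lt_succ_self n) (le_max_right _ _))
  have s2 : s a2 = s a0 := hn _ _ (fun k hk => by simp only [a2, a0]; apply decide_eq_false; omega)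
  have s1 : s a1 = s a0 := hn _ _ (fun k hk => by simp only [a1, a0]; apply decide_eq_false; omega)
  have s3 : s a3 = s a0 := hn _ _ (fun k hk => by simp only [a3, a0]; apply decide_eq_false; omega)
  have n02 : a0 ≠ a2 := fun h => by
    have := congrFun h n
    simp [a0, a2] at this
  have n13 : a1 ≠ a3 := fun h => by
    have := congrFun h n
    simp [a1, a3] at this
  by_cases h : s a0 = true
  · exact ⟨a1, a3, n13, by rw [s1, e1, h]; simp, by rw [s3, e3, h]; simp⟩
  · have h' : s a0 = false := by simpa using h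
    exact ⟨a0, a2, n02, by rw [e0, h']; simp, by rw [s2, e2, h']; simp⟩

/-! ### Cylinders in `S` -/

/-- basic open subsets of `S` -/
def cyl (F : Finset I) (s : I → Bool) : Set S := {s' | ∀ j ∈ F, s'.1 j = s j}

lemma isOpen_coord (j : I) (b : Bool) : IsOpen {s : S | s.1 j = b} := by
  have : Continuous (fun s : S => s.1 j) := (continuous_apply j).comp continuous_subtype_val
  exact (isOpen_discrete {b}).preimage this

lemma isOpen_cyl (F : Finset I) (s : I → Bool) : IsOpen (cyl F s) := by
  have : cyl F s = ⋂ j ∈ F, {s' : S | s'.1 j = s j} := by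
    ext s'; simp [cyl]
  rw [this]
  exact isOpen_biInter_finset (fun j _ => isOpen_coord j _)

lemma exists_cyl {U : Set S} (hU : IsOpen U) {s : S} (hs : s ∈ U) :
    ∃ F : Finset I, cyl F s.1 ⊆ U := by
  obtain ⟨V, hV, rfl⟩ := isOpen_induced_iff.1 hU
  obtain ⟨F, u, hu, hsub⟩ := isOpen_pi_iff.1 hV s.1 hs
  refine ⟨F, fun s' hs' => hsub ?_⟩
  intro j hj
  rw [hs' j hj]
  exact (hu j hj).2

lemma cyl_nonempty (F : Finset I) (s : I → Bool) : (cyl F s).Nonempty := by
  obtain ⟨s', hs', h⟩ := S_interp F s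
  exact ⟨⟨s', hs'⟩, h⟩

/-- The filter generated by the dense open subsets of `S`. -/
def denseF : Filter S where
  sets := {A | ∃ D : Set S, IsOpen D ∧ Dense D ∧ D ⊆ A}
  univ_sets := ⟨Set.univ, isOpen_univ, dense_univ, Subset.rfl⟩
  sets_of_superset := fun ⟨D, h1, h2, h3⟩ h => ⟨D, h1, h2, h3.trans h⟩
  inter_sets := fun ⟨D, h1, h2, h3⟩ ⟨D', h1', h2', h3'⟩ =>
    ⟨D ∩ D', h1.inter h1', h2.inter_of_isOpen_left h2' h1, Set.inter_subset_inter h3 h3'⟩

lemma mem_denseF {D : Set S} (h1 : IsOpen D) (h2 : Dense D) : D ∈ denseF :=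
  ⟨D, h1, h2, Subset.rfl⟩

/-- `V` does not depend on the coordinate `i`. -/
def IFree (i : I) (V : Set S) : Prop :=
  ∀ s ∈ V, ∃ F : Finset I, i ∉ F ∧ cyl F s.1 ⊆ V

lemma IFree.isOpen {i : I} {V : Set S} (h : IFree i V) : IsOpen V := by
  rw [isOpen_iff_forall_mem_open]
  intro s hs
  obtain ⟨F, -, hF⟩ := h s hs
  exact ⟨cyl F s.1, hF, isOpen_cyl F s.1, fun _ _ => rfl⟩

lemma IFree.inter {i : I} {V W : Set S} (hV : IFree i V) (hW : IFree i W) : IFree i (V ∩ W) := by
  classical
  rintro s ⟨h1, h2⟩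
  obtain ⟨F, hF, hF'⟩ := hV s h1
  obtain ⟨G, hG, hG'⟩ := hW s h2
  refine ⟨F ∪ G, by simp [hF, hG], fun s' hs' => ⟨hF' ?_, hG' ?_⟩⟩
  · exact fun j hj => hs' j (Finset.mem_union_left _ hj)
  · exact fun j hj => hs' j (Finset.mem_union_right _ hj)

/-- An open set depends on countably many coordinates only. -/
lemma countable_not_IFree {V : Set S} (hV : IsOpen V) : {i : I | ¬ IFree i V}.Countable := by
  classical
  have h1 : ∀ s : S, ∃ F : Finset I, s ∈ V → cyl F s.1 ⊆ V := by
    intro s
    by_cases h : s ∈ V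
    · obtain ⟨F, hF⟩ := exists_cyl hV h
      exact ⟨F, fun _ => hF⟩
    · exact ⟨∅, fun h' => (h h').elim⟩
  choose F hF using h1
  have : Countable S := S_countable.to_subtype
  refine (Set.countable_iUnion (fun s : S => (F s).countable_toSet)).mono ?_
  intro i hi
  by_contra hcon
  apply hi
  intro s hs
  refine ⟨F s, fun h => hcon (Set.mem_iUnion.2 ⟨s, h⟩), hF s hs⟩

/-! ### The ultrafilters -/

/-- A filter below `denseF` meeting all its large open sets is nontrivial. -/
lemma neBot_aux (G : Filter S) (hG : ∀ A ∈ G, ∃ V : Set S, IsOpen V ∧ V.Nonempty ∧ V ⊆ A) :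
    (denseF ⊓ G).NeBot := by
  rw [Filter.inf_neBot_iff]
  rintro A ⟨D, hD1, hD2, hD3⟩ B hB
  obtain ⟨V, hV1, hV2, hV3⟩ := hG B hB
  obtain ⟨s, hs1, hs2⟩ := hD2.inter_open_nonempty V hV1 hV2
  exact ⟨s, hD3 hs2, hV3 hs1⟩

lemma nhds_aux (y : I → Bool) :
    ∀ A ∈ comap (Subtype.val : S → (I → Bool)) (𝓝 y),
      ∃ V : Set S, IsOpen V ∧ V.Nonempty ∧ V ⊆ A := by
  intro A hA
  obtain ⟨B, hB, hBA⟩ := Filter.mem_comap.1 hA
  obtain ⟨B', hB'B, hB', hy⟩ := mem_nhds_iff.1 hB
  obtain ⟨F, u, hu, hsub⟩ := isOpen_pi_iff.1 hB' y hy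
  refine ⟨cyl F y, isOpen_cyl F y, cyl_nonempty F y, ?_⟩
  intro s hs
  apply hBA
  apply hB'B
  apply hsub
  intro j hj
  rw [hs j hj]
  exact (hu j hj).2

instance neBot_nhds (y : I → Bool) :
    (denseF ⊓ comap (Subtype.val : S → (I → Bool)) (𝓝 y)).NeBot := neBot_aux _ (nhds_aux y)

/-- An ultrafilter on `S` containing all dense open sets and converging to `y`. -/
noncomputable def uf (y : I → Bool) : Ultrafilter S :=
  Ultrafilter.of (denseF ⊓ comap (Subtype.val : S → (I → Bool)) (𝓝 y))

lemma uf_le (y : I → Bool) :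
    (uf y : Filter S) ≤ denseF ⊓ comap (Subtype.val : S → (I → Bool)) (𝓝 y) :=
  Ultrafilter.of_le _

/-- the members of `uf eps` that do not depend on `i`, with the coordinate `i` flipped -/
def flipF (i : I) : Filter S where
  sets := {A | ∃ V : Set S, V ∈ uf eps ∧ IFree i V ∧ V ∩ {s | s.1 i ≠ eps i} ⊆ A}
  univ_sets := ⟨Set.univ, Filter.univ_mem, fun _ _ => ⟨∅, by simp, Set.subset_univ _⟩,
    Set.subset_univ _⟩
  sets_of_superset := fun ⟨D, h1, h2, h3⟩ h => ⟨D, h1, h2, h3.trans h⟩
  inter_sets := fun ⟨D, h1, h2, h3⟩ ⟨D', h1', h2', h3'⟩ =>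
    ⟨D ∩ D', Filter.inter_mem h1 h1', h2.inter h2', fun _ hs =>
      ⟨h3 ⟨hs.1.1, hs.2⟩, h3' ⟨hs.1.2, hs.2⟩⟩⟩

lemma flip_aux (i : I) : ∀ A ∈ flipF i, ∃ V : Set S, IsOpen V ∧ V.Nonempty ∧ V ⊆ A := by
  classical
  rintro A ⟨V, hV, hVi, hVA⟩
  refine ⟨V ∩ {s | s.1 i ≠ eps i}, ?_, ?_, hVA⟩
  · refine hVi.isOpen.inter ?_
    have : {s : S | s.1 i ≠ eps i} = {s : S | s.1 i = !eps i} := by
      ext s
      simp only [Set.mem_ofPred_eq]
      cases s.1 i <;> cases eps i <;> simp
    rw [this]
    exact isOpen_coord i _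
  · obtain ⟨s, hs⟩ : V.Nonempty := Ultrafilter.nonempty_of_mem hV
    obtain ⟨F, hiF, hF⟩ := hVi s hs
    obtain ⟨s', hs'S, hs'⟩ := S_interp (insert i F) (fun j => if j = i then !eps i else s.1 j)
    refine ⟨⟨s', hs'S⟩, hF ?_, ?_⟩
    · intro j hj
      have hne : j ≠ i := fun h => hiF (h ▸ hj)
      have := hs' j (Finset.mem_insert_of_mem hj)
      simpa [hne] using this
    · have := hs' i (Finset.mem_insert_self _ _)
      simp only [if_true] at this
      show s' i ≠ eps i
      rw [this]
      cases eps i <;> simp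

instance neBot_flip (i : I) : (denseF ⊓ flipF i).NeBot := neBot_aux _ (flip_aux i)

/-- The underlying set of the space: `S`, the points `p i` and `p∞`. -/
abbrev P : Type := S ⊕ Option I

/-- The ultrafilter attached to a point. -/
noncomputable def q : P → Ultrafilter S
  | Sum.inl s => uf s.1
  | Sum.inr none => uf eps
  | Sum.inr (some i) => Ultrafilter.of (denseF ⊓ flipF i)

open Classical in
/-- The image of a point in the cube. -/
noncomputable def pi : P → I → Bool
  | Sum.inl s => s.1
  | Sum.inr none => eps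
  | Sum.inr (some i) => Function.update eps i (!eps i)

lemma q_dense (x : P) : (q x : Filter S) ≤ denseF := by
  rcases x with s | _ | i
  · exact (uf_le s.1).trans inf_le_left
  · exact (uf_le eps).trans inf_le_left
  · exact (Ultrafilter.of_le (denseF ⊓ flipF i)).trans inf_le_left

lemma uf_coord (y : I → Bool) (j : I) : {s : S | s.1 j = y j} ∈ uf y := by
  have h : comap (Subtype.val : S → (I → Bool)) (𝓝 y) ≤ 𝓟 {s : S | s.1 j = y j} := by
    rw [Filter.le_principal_iff]
    refine Filter.mem_comap.2 ⟨{z | z j = y j}, ?_, fun s hs => hs⟩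
    have hc : Continuous (fun z : I → Bool => z j) := continuous_apply j
    have : IsOpen {z : I → Bool | z j = y j} := (isOpen_discrete {y j}).preimage hc
    exact this.mem_nhds rfl
  exact Filter.le_principal_iff.1 (((uf_le y).trans inf_le_right).trans h)

lemma q_coord (x : P) (j : I) : {s : S | s.1 j = pi x j} ∈ q x := by
  classical
  rcases x with s | _ | i
  · exact uf_coord s.1 j
  · exact uf_coord eps j
  · have hle : ((q (Sum.inr (some i)) : Ultrafilter S) : Filter S) ≤ flipF i :=
      (Ultrafilter.of_le (denseF ⊓ flipF i)).trans inf_le_right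
    apply hle
    by_cases h : j = i
    · subst h
      refine ⟨Set.univ, Filter.univ_mem, fun _ _ => ⟨∅, by simp, Set.subset_univ _⟩, ?_⟩
      rintro s ⟨-, hs⟩
      have hs' : s.1 j ≠ eps j := hs
      show s.1 j = Function.update eps j (!eps j) j
      rw [Function.update_self]
      revert hs'
      cases s.1 j <;> cases eps j <;> simp
    · refine ⟨{s : S | s.1 j = eps j}, uf_coord eps j, ?_, ?_⟩
      · intro s hs
        refine ⟨{j}, by simpa using (Ne.symm h), fun s' hs' => ?_⟩
        have := hs' j (by simp)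
        exact this.trans hs
      · rintro s ⟨hs, -⟩
        show s.1 j = Function.update eps i (!eps i) j
        rw [Function.update_of_ne h]
        exact hs

/-- `pi` is injective. -/
lemma pi_injective : Function.Injective pi := by
  classical
  have hflip : ∀ i : I, pi (Sum.inr (some i)) i = !eps i := fun i => by
    show Function.update eps i (!eps i) i = _
    rw [Function.update_self]
  have hother : ∀ i j : I, j ≠ i → pi (Sum.inr (some i)) j = eps j := fun i j h => by
    show Function.update eps i (!eps i) j = _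
    rw [Function.update_of_ne h]
  have hS : ∀ (s : S) (o : Option I), pi (Sum.inl s) ≠ pi (Sum.inr o) := by
    intro s o heq
    obtain ⟨j, k, hjk, hj, hk⟩ := S_eps s.1 s.2
    rcases o with _ | i
    · exact hj (congrFun heq j)
    · by_cases h : j = i
      · have hki : k ≠ i := fun h' => hjk (h.trans h'.symm)
        exact hk ((congrFun heq k).trans (hother i k hki))
      · exact hj ((congrFun heq j).trans (hother i j h))
  rintro (s | _ | i) (t | _ | j) h
  · exact congrArg Sum.inl (Subtype.ext h)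
  · exact (hS s none h).elim
  · exact (hS s (some j) h).elim
  · exact (hS t none h.symm).elim
  · rfl
  · exfalso
    have h1 := congrFun h j
    rw [hflip] at h1
    have h2 : pi (Sum.inr none) j = eps j := rfl
    rw [h2] at h1
    cases h3 : eps j <;> simp [h3] at h1
  · exact (hS t (some i) h.symm).elim
  · exfalso
    have h1 := congrFun h i
    rw [hflip] at h1
    have h2 : pi (Sum.inr none) i = eps i := rfl
    rw [h2] at h1
    cases h3 : eps i <;> simp [h3] at h1
  · by_cases hij : i = j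
    · rw [hij]
    · exfalso
      have h1 := congrFun h i
      rw [hflip, hother j i hij] at h1
      cases h3 : eps i <;> simp [h3] at h1

/-! ### The space -/

/-- The basic (cl)open set given by an open set `V` of `S`. -/
def hat (V : Set S) : Set P := {x | V ∈ q x}

lemma hat_inter (V W : Set S) : hat (V ∩ W) = hat V ∩ hat W := by
  ext x
  exact Filter.inter_mem_iff

lemma hat_mono {V W : Set S} (h : V ⊆ W) : hat V ⊆ hat W := fun _ hx => Filter.mem_of_superset hx h

/-- The space. -/
def XX : Type := P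

instance : TopologicalSpace XX where
  IsOpen U := ∀ x ∈ U, ∃ V : Set S, IsOpen V ∧ x ∈ hat V ∧ hat V ⊆ U
  isOpen_univ := fun _ _ => ⟨Set.univ, isOpen_univ, Filter.univ_mem, Set.subset_univ _⟩
  isOpen_inter := by
    intro U U' hU hU' x hx
    obtain ⟨V, hV1, hV2, hV3⟩ := hU x hx.1
    obtain ⟨W, hW1, hW2, hW3⟩ := hU' x hx.2
    refine ⟨V ∩ W, hV1.inter hW1, ?_, ?_⟩
    · rw [hat_inter]; exact ⟨hV2, hW2⟩
    · rw [hat_inter]; exact Set.inter_subset_inter hV3 hW3
  isOpen_sUnion := by
    intro T hT x ⟨U, hU, hx⟩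
    obtain ⟨V, hV1, hV2, hV3⟩ := hT U hU x hx
    exact ⟨V, hV1, hV2, hV3.trans (Set.subset_sUnion_of_mem hU)⟩

lemma xx_isOpen_iff {U : Set XX} :
    IsOpen U ↔ ∀ x ∈ U, ∃ V : Set S, IsOpen V ∧ x ∈ hat V ∧ hat V ⊆ U := Iff.rfl

lemma isOpen_hat {V : Set S} (hV : IsOpen V) : IsOpen (X := XX) (hat V) :=
  fun _ hx => ⟨V, hV, hx, Subset.rfl⟩

/-- maximality: of `V` and the interior of its complement one belongs to `q x` -/
lemma mem_or (x : P) {V : Set S} (hV : IsOpen V) : V ∈ q x ∨ (closure V)ᶜ ∈ q x := by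
  have hd : V ∪ (closure V)ᶜ ∈ q x := by
    apply q_dense x
    apply mem_denseF
    · exact hV.union isClosed_closure.isOpen_compl
    · intro s
      by_cases h : s ∈ closure V
      · exact closure_mono Set.subset_union_left h
      · exact subset_closure (Or.inr h)
  exact Ultrafilter.union_mem_iff.1 hd

lemma hat_compl {V : Set S} (hV : IsOpen V) : (hat V)ᶜ = hat (closure V)ᶜ := by
  ext x
  constructor
  · intro hx
    rcases mem_or x hV with h | h
    · exact (hx h).elim
    · exact h
  · intro hx hx'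
    have h : V ∩ (closure V)ᶜ ∈ q x := Filter.inter_mem hx' hx
    have h' : V ∩ (closure V)ᶜ = ∅ := by
      ext s
      simp only [Set.mem_inter_iff, Set.mem_compl_iff, Set.mem_empty_iff_false, iff_false, not_and,
        not_not]
      exact fun hs => subset_closure hs
    rw [h'] at h
    exact Ultrafilter.empty_notMem h

lemma isClosed_hat {V : Set S} (hV : IsOpen V) : IsClosed (X := XX) (hat V) := by
  refine ⟨fun x hx => ⟨(closure V)ᶜ, isClosed_closure.isOpen_compl, ?_, ?_⟩⟩
  · exact (hat_compl hV).subset hx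
  · exact (hat_compl hV).symm.subset

instance : T2Space XX := by
  refine ⟨fun x y hxy => ?_⟩
  have hne : pi x ≠ pi y := fun h => hxy (pi_injective h)
  obtain ⟨j, hj⟩ := Function.ne_iff.1 hne
  refine ⟨hat {s | s.1 j = pi x j}, hat {s | s.1 j = pi y j}, isOpen_hat (isOpen_coord _ _),
    isOpen_hat (isOpen_coord _ _), q_coord x j, q_coord y j, Set.disjoint_left.2 ?_⟩
  intro z hz1 hz2
  obtain ⟨s, hs1, hs2⟩ := Ultrafilter.nonempty_of_mem (Filter.inter_mem hz1 hz2)
  exact hj (hs1.symm.trans hs2)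

instance : RegularSpace XX := by
  apply RegularSpace.of_exists_mem_nhds_isClosed_subset
  intro x U hU
  obtain ⟨U', hU'U, hU', hx⟩ := mem_nhds_iff.1 hU
  obtain ⟨V, hV1, hV2, hV3⟩ := xx_isOpen_iff.1 hU' x hx
  exact ⟨hat V, (isOpen_hat hV1).mem_nhds hV2, isClosed_hat hV1, hV3.trans hU'U⟩

/-- The special point. -/
def pinf : XX := (Sum.inr none : P)

/-- Neighbourhoods of `p∞` are co-countable. -/
lemma cocountable {V : Set S} (hV : IsOpen V) (hp : pinf ∈ hat V) :
    {x : XX | x ∉ hat V}.Countable := by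
  classical
  have : Countable S := S_countable.to_subtype
  have hsub : {x : XX | x ∉ hat V} ⊆
      (Set.range (Sum.inl : S → P)) ∪ (fun i => (Sum.inr (some i) : P)) '' {i | ¬ IFree i V} := by
    intro x hx
    rcases x with s | _ | i
    · exact Or.inl ⟨s, rfl⟩
    · exact (hx hp).elim
    · right
      refine ⟨i, ?_, rfl⟩
      intro hfree
      apply hx
      have hle : ((q (Sum.inr (some i)) : Ultrafilter S) : Filter S) ≤ flipF i :=
        (Ultrafilter.of_le (denseF ⊓ flipF i)).trans inf_le_right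
      exact hle ⟨V, hp, hfree, Set.inter_subset_left⟩
  exact ((Set.countable_range _).union ((countable_not_IFree hV).image _)).mono hsub

instance : LindelofSpace XX := by
  classical
  refine ⟨isLindelof_of_countable_subcover ?_⟩
  intro ι U hU hcov
  have hcov' : ∀ t : XX, ∃ i, t ∈ U i := fun t => Set.mem_iUnion.1 (hcov (Set.mem_univ t))
  choose J hJ using hcov'
  obtain ⟨V, hV1, hV2, hV3⟩ := xx_isOpen_iff.1 (hU (J pinf)) pinf (hJ pinf)
  refine ⟨{J pinf} ∪ J '' {x : XX | x ∉ hat V},
    (Set.countable_singleton _).union ((cocountable hV1 hV2).image _), ?_⟩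
  intro x _
  by_cases hx : x ∈ hat V
  · exact Set.mem_biUnion (x := J pinf) (Or.inl rfl) (hV3 hx)
  · exact Set.mem_biUnion (x := J x) (Or.inr ⟨x, hx, rfl⟩) (hJ x)

/-- A point of `S` belongs to `hat V` for all its open neighbourhoods `V`. -/
lemma inl_mem_hat {V : Set S} (hV : IsOpen V) {s : S} (hs : s ∈ V) :
    (Sum.inl s : P) ∈ hat V := by
  have h : comap (Subtype.val : S → (I → Bool)) (𝓝 s.1) ≤ 𝓟 V := by
    have h0 : V ∈ 𝓝 s := hV.mem_nhds hs
    rw [nhds_subtype] at h0
    exact Filter.le_principal_iff.2 h0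
  exact Filter.le_principal_iff.1 (((uf_le s.1).trans inf_le_right).trans h)

/-- A quasicontinuous function equals its value at `p∞` outside a countable set. -/
lemma quasi_countable {f : XX → ℝ} (hf : QuasiContinuous f) :
    {x : XX | f x ≠ f pinf}.Countable := by
  have main : ∀ e : ℝ, 0 < e → {x : XX | ¬ |f x - f pinf| ≤ e}.Countable := by
    intro e he
    -- the open subset of `S` on whose hat `f` is close to `f pinf`
    let V : Set S := ⋃₀ {V' | IsOpen V' ∧ ∀ x ∈ hat V', |f x - f pinf| < e}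
    have hVo : IsOpen V := isOpen_sUnion (fun V' h => h.1)
    have hVp : pinf ∈ hat V := by
      by_contra hcon
      have h1 : pinf ∈ hat (closure V)ᶜ := by
        rw [← hat_compl hVo]; exact hcon
      obtain ⟨W, hW1, ⟨y, hy⟩, hW3, hW4⟩ := hf pinf (hat (closure V)ᶜ)
        (isOpen_hat isClosed_closure.isOpen_compl) h1 {r | |r - f pinf| < e}
        (isOpen_lt (by fun_prop) continuous_const) (by simpa using he)
      obtain ⟨V', hV'1, hV'2, hV'3⟩ := xx_isOpen_iff.1 hW1 y hy
      have hV'V : V' ⊆ V := by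
        intro s hs
        refine ⟨V', ⟨hV'1, fun x hx => ?_⟩, hs⟩
        exact hW4 ⟨x, hV'3 hx, rfl⟩
      have h2 : y ∈ hat V := hat_mono hV'V hV'2
      have h3 : y ∈ hat (closure V)ᶜ := hW3 hy
      rw [← hat_compl hVo] at h3
      exact h3 h2
    refine (cocountable hVo hVp).mono ?_
    intro x hx hxV
    have hx' : ¬ |f x - f pinf| ≤ e := hx
    obtain ⟨W, hW1, ⟨y, hy⟩, hW3, hW4⟩ := hf x (hat V) (isOpen_hat hVo) hxV
      {r | e < |r - f pinf|} (isOpen_lt continuous_const (by fun_prop)) (not_le.1 hx')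
    obtain ⟨V', hV'1, hV'2, hV'3⟩ := xx_isOpen_iff.1 hW1 y hy
    have hmem : V' ∩ V ∈ q y := Filter.inter_mem hV'2 (hW3 hy)
    obtain ⟨s, hs1, hs2⟩ := Ultrafilter.nonempty_of_mem hmem
    obtain ⟨V'', ⟨hV''1, hV''2⟩, hs''⟩ := hs2
    have h1 : |f (Sum.inl s : P) - f pinf| < e := hV''2 _ (inl_mem_hat hV''1 hs'')
    have h2 : e < |f (Sum.inl s : P) - f pinf| := hW4 ⟨_, hV'3 (inl_mem_hat hV'1 hs1), rfl⟩
    exact lt_asymm h1 h2
  have hsub : {x : XX | f x ≠ f pinf} ⊆
      ⋃ n : ℕ, {x : XX | ¬ |f x - f pinf| ≤ 1 / ((n : ℝ) + 1)} := by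
    intro x hx
    have hpos : 0 < |f x - f pinf| := abs_pos.2 (sub_ne_zero.2 hx)
    obtain ⟨n, hn⟩ := exists_nat_one_div_lt hpos
    exact Set.mem_iUnion.2 ⟨n, not_le.2 hn⟩
  exact (Set.countable_iUnion (fun n => main _ (by positivity))).mono hsub

/-- `Q_p(X, ℝ)` is Fréchet–Urysohn. -/
lemma frechetUrysohn : FrechetUrysohnSpace (Qp XX) := by
  classical
  refine ⟨fun A g hg => ?_⟩
  -- approximations on finite sets
  have happ : ∀ (F : Finset XX) (n : ℕ), ∃ f ∈ A, ∀ x ∈ F, |f.1 x - g.1 x| < 1 / ((n : ℝ) + 1) := by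
    intro F n
    have hopen : IsOpen {f : Qp XX | ∀ x ∈ F, |f.1 x - g.1 x| < 1 / ((n : ℝ) + 1)} := by
      have : {f : Qp XX | ∀ x ∈ F, |f.1 x - g.1 x| < 1 / ((n : ℝ) + 1)} =
          ⋂ x ∈ F, {f : Qp XX | |f.1 x - g.1 x| < 1 / ((n : ℝ) + 1)} := by
        ext f; simp
      rw [this]
      refine isOpen_biInter_finset (fun x _ => ?_)
      have hc : Continuous (fun f : Qp XX => |f.1 x - g.1 x|) :=
        (((continuous_apply x).comp continuous_subtype_val).sub continuous_const).abs
      exact isOpen_lt hc continuous_const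
    obtain ⟨f, hf1, hf2⟩ := mem_closure_iff.1 hg _ hopen (fun x _ => by
      simp only [sub_self, abs_zero]; positivity)
    exact ⟨f, hf2, hf1⟩
  choose h hhA hh using happ
  -- closing off
  let D : Qp XX → Set XX := fun f => {x | f.1 x ≠ f.1 pinf}
  have hD : ∀ f, (D f).Countable := fun f => quasi_countable f.2
  let step : Set XX → Set XX := fun C =>
    C ∪ ⋃ p ∈ ({F : Finset XX | (F : Set XX) ⊆ C} ×ˢ (Set.univ : Set ℕ)), D (h p.1 p.2)
  let C : ℕ → Set XX := fun k => step^[k] (insert pinf (D g))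
  have hCs : ∀ k, C (k + 1) = step (C k) := fun k => Function.iterate_succ_apply' step k _
  have hCc : ∀ k, (C k).Countable := by
    intro k
    induction k with
    | zero => exact (hD g).insert _
    | succ k ih =>
      rw [hCs]
      refine ih.union ?_
      refine Set.Countable.biUnion ?_ (fun p _ => hD _)
      refine Set.Countable.prod ?_ (Set.to_countable _)
      have h1 := Set.countable_ofPred_finite_subset ih
      refine Set.countable_of_injective_of_countable_image
        (f := fun F : Finset XX => (F : Set XX)) Finset.coe_injective.injOn (h1.mono ?_)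
      rintro _ ⟨F, hF, rfl⟩
      exact ⟨F.finite_toSet, hF⟩
  have hCmono : ∀ k, C k ⊆ C (k + 1) := fun k => by
    rw [hCs]; exact Set.subset_union_left
  have hCmono' : Monotone C := monotone_nat_of_le_succ hCmono
  let CC : Set XX := ⋃ k, C k
  have hCCc : CC.Countable := Set.countable_iUnion hCc
  have hpC : pinf ∈ CC := Set.mem_iUnion.2 ⟨0, Or.inl rfl⟩
  have hgC : D g ⊆ CC := fun x hx => Set.mem_iUnion.2 ⟨0, Or.inr hx⟩
  have hfC : ∀ (F : Finset XX) (n : ℕ), (F : Set XX) ⊆ CC → D (h F n) ⊆ CC := by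
    intro F n hF
    have : ∃ k, (F : Set XX) ⊆ C k := by
      have h1 : ∀ x : XX, ∃ k, x ∈ CC → x ∈ C k := by
        intro x
        by_cases hx : x ∈ CC
        · obtain ⟨k, hk⟩ := Set.mem_iUnion.1 hx
          exact ⟨k, fun _ => hk⟩
        · exact ⟨0, fun h' => (hx h').elim⟩
      choose K hK using h1
      exact ⟨F.sup K, fun x hx => hCmono' (Finset.le_sup (f := K) hx) (hK x (hF hx))⟩
    obtain ⟨k, hk⟩ := this
    intro x hx
    refine Set.mem_iUnion.2 ⟨k + 1, ?_⟩
    rw [hCs]
    exact Or.inr (Set.mem_biUnion (x := (F, n)) ⟨hk, Set.mem_univ _⟩ hx)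
  obtain ⟨c, hc⟩ := hCCc.exists_eq_range ⟨pinf, hpC⟩
  let F : ℕ → Finset XX := fun n => insert pinf ((Finset.range (n + 1)).image c)
  have hF : ∀ n, (F n : Set XX) ⊆ CC := by
    intro n x hx
    simp only [F, Finset.coe_insert, Finset.coe_image, Set.mem_insert_iff] at hx
    rcases hx with rfl | ⟨m, -, rfl⟩
    · exact hpC
    · rw [hc]; exact ⟨m, rfl⟩
  refine ⟨fun n => h (F n) n, fun n => hhA _ _, ?_⟩
  rw [tendsto_subtype_rng, tendsto_pi_nhds]
  intro x
  rw [Metric.tendsto_atTop]
  intro e he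
  obtain ⟨N, hN⟩ := exists_nat_one_div_lt he
  by_cases hx : x ∈ CC
  · rw [hc] at hx
    obtain ⟨m, rfl⟩ := hx
    refine ⟨max N m, fun n hn => ?_⟩
    have hmem : c m ∈ F n := by
      simp only [F, Finset.mem_insert, Finset.mem_image, Finset.mem_range]
      right
      exact ⟨m, by have := le_trans (le_max_right N m) hn; omega, rfl⟩
    have h1 := hh (F n) n (c m) hmem
    rw [Real.dist_eq]
    refine h1.trans (lt_of_le_of_lt ?_ hN)
    have : (N : ℝ) ≤ n := by exact_mod_cast le_trans (le_max_left N m) hn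
    apply one_div_le_one_div_of_le <;> [positivity; linarith]
  · refine ⟨N, fun n hn => ?_⟩
    have h1 := hh (F n) n pinf (Finset.mem_insert_self _ _)
    have h2 : (h (F n) n).1 x = (h (F n) n).1 pinf := by
      by_contra hne
      exact hx (hfC (F n) n (hF n) hne)
    have h3 : g.1 x = g.1 pinf := by
      by_contra hne
      exact hx (hgC hne)
    rw [Real.dist_eq, h2, h3]
    refine h1.trans (lt_of_le_of_lt ?_ hN)
    have : (N : ℝ) ≤ n := by exact_mod_cast hn
    apply one_div_le_one_div_of_le <;> [positivity; linarith]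

/-- The set of new points is closed and nowhere dense. -/
lemma nowhereDense : IsNowhereDense (X := XX) (Set.range (Sum.inr : Option I → P)) := by
  classical
  have hopen : IsOpen (X := XX) (Set.range (Sum.inl : S → P)) := by
    rintro _ ⟨s, rfl⟩
    obtain ⟨j, k, hjk, hj, hk⟩ := S_eps s.1 s.2
    refine ⟨{s' : S | s'.1 j = s.1 j} ∩ {s' : S | s'.1 k = s.1 k},
      (isOpen_coord _ _).inter (isOpen_coord _ _),
      inl_mem_hat ((isOpen_coord _ _).inter (isOpen_coord _ _)) ⟨rfl, rfl⟩, ?_⟩
    rintro (t | o) hx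
    · exact ⟨t, rfl⟩
    · exfalso
      have hval : ∀ i, {s' : S | s'.1 i = s.1 i} ∈ q (Sum.inr o) → pi (Sum.inr o) i = s.1 i := by
        intro i hi
        obtain ⟨r, hr1, hr2⟩ :=
          Ultrafilter.nonempty_of_mem (Filter.inter_mem hi (q_coord (Sum.inr o) i))
        exact (hr2.symm.trans hr1)
      have hj' := hval j (Filter.mem_of_superset hx Set.inter_subset_left)
      have hk' := hval k (Filter.mem_of_superset hx Set.inter_subset_right)
      rcases o with _ | i
      · exact hj hj'.symm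
      · have hother : ∀ l : I, l ≠ i → pi (Sum.inr (some i)) l = eps l := fun l h => by
          show Function.update eps i (!eps i) l = _
          rw [Function.update_of_ne h]
        by_cases h : j = i
        · have hki : k ≠ i := fun h' => hjk (h.trans h'.symm)
          exact hk (hk'.symm.trans (hother k hki))
        · exact hj (hj'.symm.trans (hother j h))
  have hclosed : IsClosed (X := XX) (Set.range (Sum.inr : Option I → P)) := by
    have : (Set.range (Sum.inr : Option I → P))ᶜ = Set.range (Sum.inl : S → P) := by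
      ext x
      rcases x with s | o <;> simp
    exact ⟨this ▸ hopen⟩
  rw [hclosed.isNowhereDense_iff]
  refine Set.eq_empty_iff_forall_notMem.2 (fun x hx => ?_)
  obtain ⟨V, hV1, hV2, hV3⟩ := xx_isOpen_iff.1 (isOpen_interior (X := XX)) x hx
  obtain ⟨s, hs⟩ := Ultrafilter.nonempty_of_mem (show V ∈ q x from hV2)
  have hmem := interior_subset (X := XX) (hV3 (inl_mem_hat hV1 hs))
  obtain ⟨o, ho⟩ := hmem
  exact absurd ho (by simp)

lemma uncountable_new : ¬ (Set.range (Sum.inr : Option I → P)).Countable := by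
  intro h
  apply I_uncountable
  have h1 : Set.InjOn (fun i : I => (Sum.inr (some i) : P)) Set.univ := by
    intro i _ j _ hij
    simpa using hij
  refine Set.countable_of_injective_of_countable_image h1 (h.mono ?_)
  rintro _ ⟨i, -, rfl⟩
  exact ⟨some i, rfl⟩

/-- There is (in ZFC) an uncountable normal Hausdorff space `X` such that `Q_p(X, ℝ)` is
Fréchet–Urysohn and `X` is not a Lusin space. -/
theorem result : ∃ (X : Type) (_ : TopologicalSpace X),
    T4Space X ∧ LindelofSpace X ∧ ¬ (Set.univ : Set X).Countable ∧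
      FrechetUrysohnSpace (Qp X) ∧ ¬ IsLusin X := by
  refine ⟨XX, inferInstance, inferInstance, inferInstance, ?_, frechetUrysohn, ?_⟩
  · exact fun h => uncountable_new (h.mono (Set.subset_univ _))
  · exact fun h => uncountable_new (h.nowhereDense _ nowhereDense)

end Pool.Agent.Results.MP_aa6101_gt.NotLusin
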